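import Pool.Agent.X75.PGL2

/-!
# MP_dcd76c_al, Q1: every odd integer `2 n + 1 ≥ 3` is the clique number of the commuting graph of
a finite non-abelian group

For an odd prime `p` dividing `2 n + 1 = z p` the group `C_z × PGL(2, p)` works.
-/

set_option autoImplicit false

namespace Pool.Agent.Results.MP_dcd76c_al.OddCliqueNumbers

/-- The commuting graph of a group `G`: the vertices are the non-central elements, two distinct
vertices are adjacent exactly when they commute. -/
def commutingGraph (G : Type*) [Group G] : SimpleGraph {x : G // x ∉ Subgroup.center G} where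
  Adj x y := x ≠ y ∧ (x : G) * y = y * x
  symm := ⟨fun _ _ h => ⟨h.1.symm, h.2.symm⟩⟩
  loopless := ⟨fun _ h => h.1 rfl⟩

/-- **Q1 is true.** For every positive integer `n` there is a finite non-abelian group `G` whose
commuting graph has clique number `2 n + 1`. -/
theorem result (n : ℕ) (hn : 0 < n) :
    ∃ (G : Type) (_ : Group G) (_ : Finite G),
      (∃ a b : G, a * b ≠ b * a) ∧ (commutingGraph G).cliqueNum = 2 * n + 1 := by
  have hN : 2 * n + 1 ≠ 1 := by omega
  set p := Nat.minFac (2 * n + 1) with hp
  have hpp : p.Prime := Nat.minFac_prime hN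
  haveI : Fact p.Prime := ⟨hpp⟩
  have hdvd : p ∣ 2 * n + 1 := Nat.minFac_dvd _
  have hp2 : p ≠ 2 := by
    intro h
    rw [h] at hdvd
    omega
  obtain ⟨z, hz⟩ := hdvd
  have hz0 : z ≠ 0 := by
    rintro rfl
    simp at hz
  haveI : NeZero z := ⟨hz0⟩
  haveI : Finite (Pool.Agent.X75.PGL.H p) := inferInstance
  haveI : Finite (Multiplicative (ZMod z)) := inferInstance
  refine ⟨Multiplicative (ZMod z) × Pool.Agent.X75.PGL.H p, inferInstance, inferInstance, ?_, ?_⟩
  · obtain ⟨S, hS1, hS2, -⟩ := Pool.Agent.X75.PGL.exists_clique (p := p) hp2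
    have hne : S.Nonempty := by
      rw [← Finset.card_pos, hS1]; exact hpp.pos
    obtain ⟨h, hh⟩ := hne
    by_contra hcon
    push Not at hcon
    apply hS2 h hh
    apply Pool.Agent.X75.PGL.centerless hp2
    intro g
    have := congrArg Prod.snd (hcon (1, h) (1, g))
    simpa using this
  · have := Pool.Agent.X75.PGL.cliqueNum_prod (K := Pool.Agent.X75.PGL.H p) z p
      (Pool.Agent.X75.PGL.centerless hp2) (Pool.Agent.X75.PGL.card_le hp2)
      (Pool.Agent.X75.PGL.exists_clique hp2)
    rw [hz, mul_comm p z]
    exact this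

end Pool.Agent.Results.MP_dcd76c_al.OddCliqueNumbers
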